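import Pool.Agent.Lib.MP_b5021c_nt.IfaceK1

/-!
# STA: the reversed polynomial is smaller on the closed polydisc

On the torus the reversed polynomial has the same modulus. A coordinate at a time, the maximum principle carries
the inequality into the closed polydisc when the polynomial has no zeros there; the general case follows by
replacing `w` by `r w`, `r → 1`.
-/

namespace Pool.Agent.MP_b5021c_nt.H45

open Filter Topology Finset

variable {ι : Type} [Fintype ι] [DecidableEq ι]

/-- The value of a multi-affine polynomial. -/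
def ev (p : Finset ι → ℂ) (w : ι → ℂ) : ℂ := ∑ S : Finset ι, p S * ∏ i ∈ S, w i

/-- The reversed polynomial. -/
def rev (p : Finset ι → ℂ) : Finset ι → ℂ := fun S => starRingEnd ℂ (p Sᶜ)

lemma ev_diff (p : Finset ι → ℂ) (w : ι → ℂ) (i : ι) :
    Differentiable ℂ (fun s : ℂ => ev p (Function.update w i s)) := by
  unfold ev
  refine Differentiable.fun_sum fun S _ => ?_
  refine Differentiable.const_mul ?_ _
  refine Differentiable.fun_finsetProd fun j _ => ?_
  by_cases h : j = i
  · subst h
    simp
  · simp [Function.update_of_ne h]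

lemma torus (p : Finset ι → ℂ) (w : ι → ℂ) (hw : ∀ i, ‖w i‖ = 1) : ‖ev (rev p) w‖ = ‖ev p w‖ := by
  have h : ev (rev p) w = (∏ i, w i) * starRingEnd ℂ (ev p w) := by
    unfold ev rev
    rw [map_sum, Finset.mul_sum]
    refine Fintype.sum_equiv (Function.Involutive.toPerm (compl : Finset ι → Finset ι) compl_involutive) _ _ ?_
    intro S
    simp only [Function.Involutive.coe_toPerm, map_mul, map_prod]
    have h1 : (∏ i, w i) = (∏ i ∈ S, w i) * ∏ i ∈ Sᶜ, w i := (Finset.prod_mul_prod_compl S w).symm
    have h2 : (∏ i ∈ Sᶜ, w i) * ∏ i ∈ Sᶜ, starRingEnd ℂ (w i) = 1 := by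
      rw [← Finset.prod_mul_distrib]
      refine Finset.prod_eq_one fun i _ => ?_
      rw [Complex.mul_conj, Complex.normSq_eq_norm_sq, hw i]
      simp
    rw [h1]
    linear_combination (-(starRingEnd ℂ (p Sᶜ) * ∏ i ∈ S, w i)) * h2
  rw [h, norm_mul, norm_prod, Finset.prod_eq_one fun i _ => hw i, one_mul, RCLike.norm_conj]

lemma closed_case (p : Finset ι → ℂ) (hp : ∀ w : ι → ℂ, (∀ i, ‖w i‖ ≤ 1) → ev p w ≠ 0) :
    ∀ (n : ℕ) (w : ι → ℂ), (∀ i, ‖w i‖ ≤ 1) → (Finset.univ.filter fun i => ‖w i‖ ≠ 1).card ≤ n →
      ‖ev (rev p) w‖ ≤ ‖ev p w‖ := by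
  intro n
  induction n with
  | zero =>
    intro w _ hc
    have h0 : (Finset.univ.filter fun i => ‖w i‖ ≠ 1) = ∅ := Finset.card_eq_zero.mp (by omega)
    refine (torus p w fun i => ?_).le
    by_contra hi
    have : i ∈ (Finset.univ.filter fun i => ‖w i‖ ≠ 1) := by simp [hi]
    rw [h0] at this
    simp at this
  | succ n ih =>
    intro w hw hc
    by_cases h0 : (Finset.univ.filter fun i => ‖w i‖ ≠ 1) = ∅
    · exact ih w hw (by simp [h0])
    obtain ⟨i, hi⟩ := Finset.nonempty_iff_ne_empty.mpr h0
    have hle : ∀ s : ℂ, ‖s‖ ≤ 1 → ∀ j, ‖Function.update w i s j‖ ≤ 1 := by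
      intro s hs j
      by_cases h : j = i
      · subst h; simpa using hs
      · simpa [Function.update_of_ne h] using hw j
    have key : ∀ s : ℂ, ‖s‖ = 1 → ‖ev (rev p) (Function.update w i s)‖ ≤ ‖ev p (Function.update w i s)‖ := by
      intro s hs
      refine ih _ (hle s hs.le) ?_
      have hsub : (Finset.univ.filter fun j => ‖Function.update w i s j‖ ≠ 1)
          ⊆ (Finset.univ.filter fun j => ‖w j‖ ≠ 1).erase i := by
        intro j hj
        simp only [Finset.mem_filter, Finset.mem_univ, true_and] at hj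
        rw [Finset.mem_erase]
        by_cases h : j = i
        · subst h
          simp [hs] at hj
        · refine ⟨h, ?_⟩
          rw [Function.update_of_ne h] at hj
          simpa using hj
      have h1 := Finset.card_le_card hsub
      rw [Finset.card_erase_of_mem hi] at h1
      omega
    have hmax : ‖ev (rev p) (Function.update w i (w i)) / ev p (Function.update w i (w i))‖ ≤ 1 := by
      refine Complex.norm_le_of_forall_mem_frontier_norm_le (U := Metric.ball (0 : ℂ) 1)
        (f := fun s => ev (rev p) (Function.update w i s) / ev p (Function.update w i s))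
        Metric.isBounded_ball ?_ ?_ ?_
      · refine DiffContOnCl.mk_ball ?_ ?_
        · intro s hs
          refine DifferentiableWithinAt.div ((ev_diff _ w i) s).differentiableWithinAt
            ((ev_diff _ w i) s).differentiableWithinAt ?_
          exact hp _ (hle s (by simpa using (mem_ball_zero_iff.mp hs).le))
        · refine ContinuousOn.div (ev_diff _ w i).continuous.continuousOn (ev_diff _ w i).continuous.continuousOn ?_
          intro s hs
          exact hp _ (hle s (by simpa using hs))
      · intro s hs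
        rw [frontier_ball (0 : ℂ) one_ne_zero] at hs
        have hs1 : ‖s‖ = 1 := by simpa using hs
        show ‖ev (rev p) (Function.update w i s) / ev p (Function.update w i s)‖ ≤ 1
        rw [norm_div]
        exact div_le_one_of_le₀ (key s hs1) (norm_nonneg _)
      · rw [closure_ball (0 : ℂ) one_ne_zero]
        simpa using hw i
    rw [Function.update_eq_self, norm_div, div_le_one₀ (norm_pos_iff.mpr (hp w hw))] at hmax
    exact hmax

omit [DecidableEq ι] in
lemma scale (p : Finset ι → ℂ) (r : ℝ) (w : ι → ℂ) :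
    ev (fun S => (r : ℂ) ^ S.card * p S) w = ev p (fun i => r * w i) := by
  unfold ev
  refine Finset.sum_congr rfl fun S _ => ?_
  rw [Finset.prod_mul_distrib, Finset.prod_const]
  ring

/-- STA. -/
theorem sta : StaS := by
  intro ι _ _ p hp w hw
  have hr : ∀ r : ℝ, 0 ≤ r → r < 1 →
      ‖ev (rev fun S => (r : ℂ) ^ S.card * p S) w‖ ≤ ‖ev (fun S => (r : ℂ) ^ S.card * p S) w‖ := by
    intro r h0 h1
    refine closed_case _ ?_ _ w hw le_rfl
    intro v hv
    rw [scale]
    refine hp _ fun i => ?_
    rw [norm_mul, Complex.norm_real, Real.norm_of_nonneg h0]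
    nlinarith [hv i, norm_nonneg (v i)]
  have c1 : Continuous fun r : ℝ => ‖ev (rev fun S => (r : ℂ) ^ S.card * p S) w‖ := by
    unfold ev rev
    refine continuous_norm.comp (continuous_finsetSum _ fun S _ => ?_)
    refine Continuous.mul (RCLike.continuous_conj.comp ?_) continuous_const
    fun_prop
  have c2 : Continuous fun r : ℝ => ‖ev (fun S => (r : ℂ) ^ S.card * p S) w‖ := by
    unfold ev
    refine continuous_norm.comp (continuous_finsetSum _ fun S _ => ?_)
    fun_prop
  have hlim := le_of_tendsto_of_tendsto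
    ((c1.tendsto 1).mono_left (nhdsWithin_le_nhds (s := Set.Iio (1 : ℝ))))
    ((c2.tendsto 1).mono_left (nhdsWithin_le_nhds (s := Set.Iio (1 : ℝ)))) ?_
  · simpa [ev, rev] using hlim
  · have : Set.Ioo (0 : ℝ) 1 ∈ 𝓝[<] (1 : ℝ) := Ioo_mem_nhdsLT one_pos
    filter_upwards [this] with r hr'
    exact hr r hr'.1.le hr'.2

end Pool.Agent.MP_b5021c_nt.H45
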